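import Pool.Agent.W2helper64.SI.Exact2

set_option autoImplicit false

/-!
# Consecutive elements in every admissible pattern, in the random sieve model of Banks, Ford and Tao

For every prime `p` a residue class `a p` modulo `p` is chosen uniformly and independently. The random
set `R` consists of the natural numbers `n ≥ e ^ 2` which avoid the class `a p` for every prime `p` with
`∏_(q ≤ p) (1 - 1 / q) ≥ 1 / log n`; this is the random sieve model for the primes of Banks, Ford and
Tao, in which the classes `0 mod p` of the sieve of Eratosthenes are replaced by random ones.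

The problem asks whether every admissible pattern is realised infinitely often by consecutive primes. We
prove that in the model the answer is yes, almost surely for all patterns at the same time, and that the
pattern occurs in every very short interval: for every `k` there is a constant `C` such that almost surely
for every admissible `H` with at most `k` elements, every window `[0, L]` containing `H` and every large `x`
there is an `n` with `x < n ≤ x + (log x) ^ C` for which `n + h`, `h ∈ H`, are the only elements of `R` in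
`[n, n + L]`. (With `L = max H` and `0 ∈ H` this is the realisation of `H` by consecutive elements of `R`.)

In the intervals `(x, x + Y]` with `exp ((log x) ^ δ) ≤ Y ≤ x`, for any `δ > 0`, the number of these `n` is
given by the formula of Hardy and Littlewood.
-/

namespace Pool.Agent.Results.MP_3ec731_nt.RandomSieveConsecutive

open Filter MeasureTheory Topology

/-- the product `V y = ∏_(p ≤ y, p prime) (1 - 1 / p)` -/
noncomputable def V (y : ℕ) : ℝ := ∏ p ∈ (Finset.Icc 1 y).filter Nat.Prime, (1 - 1 / (p : ℝ))

/-- the random set: all `n ≥ e ^ 2` outside the chosen class `a p` for every prime `p` with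
`V p ≥ 1 / log n` -/
def R (a : (p : Nat.Primes) → ZMod (p : ℕ)) : Set ℕ :=
  {n | Real.exp 2 ≤ n ∧ ∀ p : Nat.Primes, 1 ≤ V (p : ℕ) * Real.log n → ((n : ℕ) : ZMod (p : ℕ)) ≠ a p}

/-- the chosen classes `a p`, `p` prime, are independent and uniform modulo `p` -/
noncomputable def law : Measure ((p : Nat.Primes) → ZMod (p : ℕ)) :=
  Measure.infinitePi fun p : Nat.Primes => ProbabilityTheory.uniformOn (Set.univ : Set (ZMod (p : ℕ)))

/-- `H` does not contain all residue classes modulo any prime -/
def Admissible (H : Finset ℕ) : Prop := ∀ p : ℕ, p.Prime → ∃ z : ℕ, ∀ h ∈ H, ¬ h ≡ z [MOD p]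

/-- among the numbers `n, n + 1, ..., n + L` exactly the `n + h`, `h ∈ H`, are in `R` -/
def Exact (a : (p : Nat.Primes) → ZMod (p : ℕ)) (L : ℕ) (H : Finset ℕ) (n : ℕ) : Prop :=
  ∀ j ≤ L, (n + j ∈ R a ↔ j ∈ H)

open Classical in
/-- the number of the `n` with `x < n ≤ x + Y` for which exactly the `n + h`, `h ∈ H`, are in `R` among the
numbers `n, n + 1, ..., n + L` -/
noncomputable def count (a : (p : Nat.Primes) → ZMod (p : ℕ)) (L : ℕ) (H : Finset ℕ) (x Y : ℕ) : ℕ :=
  ((Finset.Ioc x (x + Y)).filter fun n : ℕ => Exact a L H n).card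

/-- the number of the residue classes modulo `p` which meet `H` -/
def nu (H : Finset ℕ) (p : ℕ) : ℕ := (H.image (· % p)).card

/-- the partial products of the singular series of `H` -/
noncomputable def series (H : Finset ℕ) (z : ℕ) : ℝ :=
  ∏ p ∈ (Finset.Icc 1 z).filter Nat.Prime, (1 - (nu H p : ℝ) / p) / (1 - 1 / (p : ℝ)) ^ H.card

/-- the sum of `∏_(h ∈ H) 1 / log (n + h)` over the `n` with `x < n ≤ x + Y` -/
noncomputable def mainTerm (H : Finset ℕ) (x Y : ℕ) : ℝ :=
  ∑ n ∈ Finset.Ioc x (x + Y), ∏ h ∈ H, 1 / Real.log ((n + h : ℕ) : ℝ)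

/-- * For every `k` there is a constant `C` such that almost surely for every `L`, every admissible subset
`H` of `[0, L]` with at most `k` elements and every large `x` there is an `n` with
`x < n ≤ x + (log x) ^ C` such that exactly the `n + h`, `h ∈ H`, are in `R` among `n, n + 1, ..., n + L`.
* Almost surely, for every `L` and every admissible subset `H` of `[0, L]` the products
`∏_(p ≤ z) (1 - ν_p / p) / (1 - 1 / p) ^ |H|` converge to some `S > 0`, and there is a constant `D` such that
for all `M`, all large `x` and all `Y ≤ x` with `log x ≤ (log Y) ^ M` (that is `Y ≥ exp ((log x) ^ (1 / M))`)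
the number of the `n` with `x < n ≤ x + Y` such that exactly the `n + h`, `h ∈ H`, are in `R` among
`n, n + 1, ..., n + L` differs from `S ∑_(x < n ≤ x + Y) ∏_(h ∈ H) 1 / log (n + h)` by at most
`D Y / (log x) ^ (|H| + 1)`. -/
theorem result :
    (∀ k : ℕ, ∃ C : ℝ, ∀ᵐ a ∂law, ∀ (L : ℕ) (H : Finset ℕ), H ⊆ Finset.range (L + 1) → H.card ≤ k →
      Admissible H → ∀ᶠ x : ℕ in atTop, ∃ n : ℕ, x < n ∧ (n : ℝ) ≤ x + Real.log x ^ C ∧ Exact a L H n) ∧
    (∀ᵐ a ∂law, ∀ (L : ℕ) (H : Finset ℕ), H ⊆ Finset.range (L + 1) → Admissible H →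
      ∃ S : ℝ, 0 < S ∧ Tendsto (series H) atTop (𝓝 S) ∧ ∃ D : ℝ, ∀ M : ℕ, ∀ᶠ x : ℕ in atTop, ∀ Y : ℕ, Y ≤ x →
        Real.log x ≤ Real.log Y ^ M →
          |(count a L H x Y : ℝ) - S * mainTerm H x Y| ≤ D * (Y / Real.log x ^ (H.card + 1))) := by
  constructor
  · intro k
    obtain ⟨C, hC⟩ := Pool.Agent.W2helper64.SI.exact_exists k
    refine ⟨C, ?_⟩
    show ∀ᵐ a ∂Pool.Agent.W2helper64.RS.law, _
    filter_upwards [hC] with a ha L H h1 h2 h3
    exact ha L H h1 h2 h3
  · show ∀ᵐ a ∂Pool.Agent.W2helper64.RS.law, _
    filter_upwards [Pool.Agent.W2helper64.SI.exact_count] with a ha L H h1 h2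
    have e : ∀ x Y : ℕ, count a L H x Y = Pool.Agent.W2helper64.SI.exc a L H x Y := by
      intro x Y
      unfold count Pool.Agent.W2helper64.SI.exc
      congr 1
      ext n
      rw [Pool.Agent.W2helper64.RK.mf', Pool.Agent.W2helper64.RK.mf']
      rfl
    simp only [e]
    exact ha L H h1 h2

end Pool.Agent.Results.MP_3ec731_nt.RandomSieveConsecutive
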