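import Pool.Agent.W2helper64.SI.Exact2

set_option autoImplicit false

/-!
# The numbers of elements in the intervals of Oppermann, in the random sieve model of Banks, Ford and Tao

For every prime `p` a residue class `a p` modulo `p` is chosen uniformly and independently. The random
set `R` consists of the natural numbers `n ≥ e ^ 2` which avoid the class `a p` for every prime `p` with
`∏_(q ≤ p) (1 - 1 / q) ≥ 1 / log n`; this is the random sieve model for the primes of Banks, Ford and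
Tao, in which the classes `0 mod p` of the sieve of Eratosthenes are replaced by random ones.

We prove that almost surely each of the intervals `[n ^ 2 - n, n ^ 2]` and `[n ^ 2, n ^ 2 + n]` contains
`n / (2 log n) + O(n / (log n) ^ U)` elements of `R`, for every `U`. More generally every interval
`(x, x + Y]` with `exp ((log x) ^ δ) ≤ Y ≤ x` contains `∑_(x < n ≤ x + Y) 1 / log n + O(Y / (log x) ^ U)`
elements of `R`, for all `δ > 0` and `U`.
-/

namespace Pool.Agent.W2helper64.OutOfScope.RandomSieveOppermann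

open Filter MeasureTheory Topology

/-- the product `V y = ∏_(p ≤ y, p prime) (1 - 1 / p)` -/
noncomputable def V (y : ℕ) : ℝ := ∏ p ∈ (Finset.Icc 1 y).filter Nat.Prime, (1 - 1 / (p : ℝ))

/-- the random set: all `n ≥ e ^ 2` outside the chosen class `a p` for every prime `p` with
`V p ≥ 1 / log n` -/
def R (a : (p : Nat.Primes) → ZMod (p : ℕ)) : Set ℕ :=
  {n | Real.exp 2 ≤ n ∧ ∀ p : Nat.Primes, 1 ≤ V (p : ℕ) * Real.log n → ((n : ℕ) : ZMod (p : ℕ)) ≠ a p}

/-- the chosen classes `a p`, `p` prime, are independent and uniform modulo `p` -/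
noncomputable def law : Measure ((p : Nat.Primes) → ZMod (p : ℕ)) :=
  Measure.infinitePi fun p : Nat.Primes => ProbabilityTheory.uniformOn (Set.univ : Set (ZMod (p : ℕ)))

open Classical in
/-- the number of the elements of `R` in `[x, y]` -/
noncomputable def count (a : (p : Nat.Primes) → ZMod (p : ℕ)) (x y : ℕ) : ℕ :=
  ((Finset.Icc x y).filter fun n : ℕ => n ∈ R a).card

theorem sing_zero (z : ℕ) : Pool.Agent.W2helper64.SI.sing {0} z = 1 := by
  unfold Pool.Agent.W2helper64.SI.sing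
  refine Finset.prod_eq_one fun p hp => ?_
  have hp2 := (Finset.mem_filter.mp hp).2.two_le
  have h1 : (2 : ℝ) ≤ p := by exact_mod_cast hp2
  have h2 : Pool.Agent.W2helper64.SI.nuH {0} p = 1 := by
    unfold Pool.Agent.W2helper64.SI.nuH
    simp
  rw [h2, Finset.card_singleton, pow_one, Nat.cast_one, div_self]
  have : 1 / (p : ℝ) ≤ 1 / 2 := one_div_le_one_div_of_le (by norm_num) h1
  linarith

theorem adm_zero : Pool.Agent.W2helper64.SI.Adm {0} := by
  intro p hp
  refine ⟨1, fun h hh he => ?_⟩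
  rw [Finset.mem_singleton] at hh
  rw [hh] at he
  have h1 : 0 % p = 1 % p := he
  rw [Nat.zero_mod, Nat.mod_eq_of_lt hp.one_lt] at h1
  exact absurd h1 (by norm_num)

theorem short : ∀ᵐ a ∂law, ∀ M U : ℕ, ∀ᶠ x : ℕ in atTop, ∀ Y : ℕ, Y ≤ x → Real.log x ≤ Real.log Y ^ M →
    |(count a (x + 1) (x + Y) : ℝ) - ∑ n ∈ Finset.Icc (x + 1) (x + Y), 1 / Real.log n| ≤ Y / Real.log x ^ U := by
  show ∀ᵐ a ∂Pool.Agent.W2helper64.RS.law, _
  filter_upwards [Pool.Agent.W2helper64.SI.occ_SI] with a ha M U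
  obtain ⟨S, -, h2, -, h4⟩ := ha {0}
  have hS : S = 1 := by
    refine tendsto_nhds_unique h2 ?_
    refine Tendsto.congr (fun z => (sing_zero z).symm) tendsto_const_nhds
  rw [hS] at h4
  have hI : ∀ x Y : ℕ, Finset.Ioc x (x + Y) = Finset.Icc (x + 1) (x + Y) := by
    intro x Y
    ext n
    rw [Finset.mem_Ioc, Finset.mem_Icc]
    omega
  filter_upwards [h4 M U] with x hx Y hY1 hY2
  have h5 := hx Y hY1 hY2
  have e1 : Pool.Agent.W2helper64.SI.occ a {0} x Y = count a (x + 1) (x + Y) := by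
    unfold Pool.Agent.W2helper64.SI.occ count
    rw [hI]
    congr 1
    ext n
    rw [Pool.Agent.W2helper64.RK.mf', Pool.Agent.W2helper64.RK.mf']
    refine and_congr_right fun _ => ?_
    simp only [Finset.mem_singleton, forall_eq, add_zero]
    rfl
  have e2 : Pool.Agent.W2helper64.SI.mt {0} x Y = ∑ n ∈ Finset.Icc (x + 1) (x + Y), 1 / Real.log n := by
    unfold Pool.Agent.W2helper64.SI.mt
    rw [hI]
    refine Finset.sum_congr rfl fun n _ => ?_
    rw [Finset.prod_singleton, add_zero]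
  rwa [e1, e2, one_mul] at h5

/-- the logarithm near a square -/
theorem log_near {n m : ℕ} (hn : 9 ≤ n) (h1 : n ^ 2 ≤ m + n) (h2 : m ≤ n ^ 2 + n) :
    |1 / Real.log m - 1 / (2 * Real.log n)| ≤ 2 / n := by
  have hn9 : (9 : ℝ) ≤ n := by exact_mod_cast hn
  have h1' : (n : ℝ) ^ 2 ≤ m + n := by exact_mod_cast h1
  have h2' : (m : ℝ) ≤ (n : ℝ) ^ 2 + n := by exact_mod_cast h2
  have hm0 : (9 : ℝ) ≤ m := by nlinarith
  have hn0 : (0 : ℝ) < n := by linarith
  have he : ∀ y : ℝ, 9 ≤ y → 1 ≤ Real.log y := by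
    intro y hy
    rw [Real.le_log_iff_exp_le (by linarith)]
    linarith [Real.exp_one_lt_d9]
  have hl1 := he m hm0
  have hl2 := he n hn9
  have hsq : Real.log ((n : ℝ) ^ 2) = 2 * Real.log n := by
    rw [Real.log_pow]
    norm_num
  have hd : |Real.log ((n : ℝ) ^ 2) - Real.log m| ≤ 2 / n := by
    have u1 : Real.log ((n : ℝ) ^ 2) - Real.log m = Real.log ((n : ℝ) ^ 2 / m) := by
      rw [Real.log_div (by positivity) (by positivity)]
    have u2 : Real.log ((n : ℝ) ^ 2 / m) ≤ (n : ℝ) ^ 2 / m - 1 := Real.log_le_sub_one_of_pos (by positivity)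
    have u3 : (n : ℝ) ^ 2 / m - 1 ≤ 2 / n := by
      rw [div_sub_one (by positivity), div_le_div_iff₀ (by positivity) hn0]
      nlinarith
    have v1 : Real.log m - Real.log ((n : ℝ) ^ 2) = Real.log ((m : ℝ) / (n : ℝ) ^ 2) := by
      rw [Real.log_div (by positivity) (by positivity)]
    have v2 : Real.log ((m : ℝ) / (n : ℝ) ^ 2) ≤ (m : ℝ) / (n : ℝ) ^ 2 - 1 := Real.log_le_sub_one_of_pos (by positivity)
    have v3 : (m : ℝ) / (n : ℝ) ^ 2 - 1 ≤ 2 / n := by
      rw [div_sub_one (by positivity), div_le_div_iff₀ (by positivity) hn0]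
      nlinarith
    rw [abs_le]
    constructor
    · linarith
    · linarith
  have e1 : 1 / Real.log m - 1 / (2 * Real.log n) =
      (Real.log ((n : ℝ) ^ 2) - Real.log m) / (Real.log m * (2 * Real.log n)) := by
    rw [hsq]
    have : Real.log (m : ℝ) ≠ 0 := by linarith
    have : Real.log (n : ℝ) ≠ 0 := by linarith
    field_simp
  rw [e1, abs_div]
  have e2 : 1 ≤ |Real.log m * (2 * Real.log n)| := by
    rw [abs_of_nonneg (by positivity)]
    nlinarith
  refine (div_le_self (abs_nonneg _) e2).trans hd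

/-- the two kinds of intervals at once -/
theorem near (s : ℕ) (hs : s ≤ 1) : ∀ᵐ a ∂law, ∀ U : ℕ, ∀ᶠ n : ℕ in atTop,
    |(count a (n ^ 2 - s * n) (n ^ 2 - s * n + n) : ℝ) - n / (2 * Real.log n)| ≤ n / Real.log n ^ U := by
  filter_upwards [short] with a ha U
  have hlog : Tendsto (fun x : ℕ => Real.log (x : ℝ)) atTop atTop :=
    Real.tendsto_log_atTop.comp tendsto_natCast_atTop_atTop
  have hx : Tendsto (fun n : ℕ => n ^ 2 - s * n - 1) atTop atTop := by
    refine tendsto_atTop_mono' atTop ?_ tendsto_id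
    filter_upwards [eventually_ge_atTop 9] with n hn
    have h1 : 9 * n ≤ n ^ 2 := by nlinarith
    have h2 : s * n ≤ 1 * n := Nat.mul_le_mul_right n hs
    simp only [id]
    omega
  have hsmall : ∀ᶠ n : ℕ in atTop, 10 * Real.log (n : ℝ) ^ U ≤ n := by
    have h1 := (isLittleO_log_rpow_rpow_atTop (U : ℝ) (show (0 : ℝ) < 1 by norm_num)).bound
      (show (0 : ℝ) < 1 / 10 by norm_num)
    filter_upwards [tendsto_natCast_atTop_atTop.eventually h1, eventually_ge_atTop 1] with n hn hn1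
    have hl : 0 ≤ Real.log (n : ℝ) := Real.log_natCast_nonneg n
    rw [Real.rpow_natCast, Real.rpow_one, Real.norm_of_nonneg (by positivity), Real.norm_of_nonneg (by positivity)] at hn
    linarith
  filter_upwards [hx.eventually (ha 2 (U + 1)), hlog.eventually_ge_atTop 4, eventually_ge_atTop 9, hsmall]
    with n hn hl4 hn9 hsm
  set x : ℕ := n ^ 2 - s * n - 1 with hxdef
  have h1 : 9 * n ≤ n ^ 2 := by nlinarith
  have h2 : s * n ≤ 1 * n := Nat.mul_le_mul_right n hs
  have hx1 : x + 1 = n ^ 2 - s * n := by omega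
  have hxn : n + 1 ≤ x := by omega
  have hn9' : (9 : ℝ) ≤ n := by exact_mod_cast hn9
  have hn0 : (0 : ℝ) < n := by linarith
  have hL0 : 0 < Real.log (n : ℝ) := by linarith
  have hmono : Real.log (n : ℝ) ≤ Real.log ((n + 1 : ℕ) : ℝ) := by
    apply Real.log_le_log hn0
    push_cast
    linarith
  have hxr : (x : ℝ) ≤ (n : ℝ) ^ 2 := by exact_mod_cast (by omega : x ≤ n ^ 2)
  have hxn' : ((n + 1 : ℕ) : ℝ) ≤ x := by exact_mod_cast hxn
  have hx0 : (0 : ℝ) < x := by push_cast at hxn'; linarith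
  have hc : Real.log (x : ℝ) ≤ Real.log ((n + 1 : ℕ) : ℝ) ^ 2 := by
    have e1 : Real.log (x : ℝ) ≤ 2 * Real.log n := by
      refine (Real.log_le_log hx0 hxr).trans ?_
      rw [Real.log_pow]
      norm_num
    have e2 : 2 * Real.log (n : ℝ) ≤ Real.log n ^ 2 := by nlinarith
    have e3 : Real.log (n : ℝ) ^ 2 ≤ Real.log ((n + 1 : ℕ) : ℝ) ^ 2 := pow_le_pow_left₀ hL0.le hmono 2
    linarith
  have h5 := hn (n + 1) hxn hc
  have e1 : x + (n + 1) = n ^ 2 - s * n + n := by omega
  rw [e1, hx1] at h5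
  have hLx : Real.log (n : ℝ) ≤ Real.log (x : ℝ) := by
    apply Real.log_le_log hn0
    push_cast at hxn'
    linarith
  have h6 : (((n + 1 : ℕ) : ℕ) : ℝ) / Real.log x ^ (U + 1) ≤ 1 / 2 * (n / Real.log n ^ U) := by
    have e2 : (((n + 1 : ℕ) : ℕ) : ℝ) / Real.log x ^ (U + 1) ≤ ((n + 1 : ℕ) : ℝ) / Real.log n ^ (U + 1) := by
      apply div_le_div_of_nonneg_left (by positivity) (by positivity)
      exact pow_le_pow_left₀ hL0.le hLx _
    refine e2.trans ?_
    rw [pow_succ, ← div_div, div_le_iff₀ hL0]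
    have e3 : ((n + 1 : ℕ) : ℝ) ≤ 2 * n := by push_cast; linarith
    have e4 : ((n + 1 : ℕ) : ℝ) / Real.log n ^ U ≤ 2 * (n / Real.log n ^ U) := by
      rw [← mul_div_assoc]
      exact div_le_div_of_nonneg_right e3 (by positivity)
    have e5 : 0 ≤ (n : ℝ) / Real.log n ^ U := by positivity
    nlinarith
  have h7 : |∑ m ∈ Finset.Icc (n ^ 2 - s * n) (n ^ 2 - s * n + n), 1 / Real.log m - n / (2 * Real.log n)| ≤ 5 := by
    have hcard : (Finset.Icc (n ^ 2 - s * n) (n ^ 2 - s * n + n)).card = n + 1 := by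
      rw [Nat.card_Icc]
      omega
    have e2 : ∑ m ∈ Finset.Icc (n ^ 2 - s * n) (n ^ 2 - s * n + n), 1 / Real.log m - n / (2 * Real.log n) =
        ∑ m ∈ Finset.Icc (n ^ 2 - s * n) (n ^ 2 - s * n + n), (1 / Real.log m - 1 / (2 * Real.log n)) +
          1 / (2 * Real.log n) := by
      rw [Finset.sum_sub_distrib, Finset.sum_const, hcard, nsmul_eq_mul]
      push_cast
      ring
    rw [e2]
    have e3 : |∑ m ∈ Finset.Icc (n ^ 2 - s * n) (n ^ 2 - s * n + n), (1 / Real.log m - 1 / (2 * Real.log n))| ≤ 4 := by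
      refine (Finset.abs_sum_le_sum_abs _ _).trans ?_
      have e4 : ∀ m ∈ Finset.Icc (n ^ 2 - s * n) (n ^ 2 - s * n + n),
          |1 / Real.log (m : ℝ) - 1 / (2 * Real.log n)| ≤ 2 / n := by
        intro m hm
        rw [Finset.mem_Icc] at hm
        exact log_near hn9 (by omega) (by omega)
      refine (Finset.sum_le_card_nsmul _ _ _ e4).trans ?_
      rw [hcard, nsmul_eq_mul]
      push_cast
      rw [← mul_div_assoc, div_le_iff₀ hn0]
      linarith
    have e5 : |1 / (2 * Real.log (n : ℝ))| ≤ 1 := by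
      rw [abs_of_nonneg (by positivity), div_le_one (by positivity)]
      linarith
    exact (abs_add_le _ _).trans (by linarith)
  have h8 : (5 : ℝ) ≤ 1 / 2 * (n / Real.log n ^ U) := by
    rw [← mul_div_assoc, le_div_iff₀ (by positivity)]
    linarith
  have h9 := (abs_add_le
    ((count a (n ^ 2 - s * n) (n ^ 2 - s * n + n) : ℝ) -
      ∑ m ∈ Finset.Icc (n ^ 2 - s * n) (n ^ 2 - s * n + n), 1 / Real.log (m : ℝ))
    (∑ m ∈ Finset.Icc (n ^ 2 - s * n) (n ^ 2 - s * n + n), 1 / Real.log (m : ℝ) - n / (2 * Real.log n)))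
  rw [sub_add_sub_cancel] at h9
  linarith

/-- * Almost surely, for every `U` and all large `n`, the number of the elements of `R` in
`[n ^ 2 - n, n ^ 2]` and the number of the elements of `R` in `[n ^ 2, n ^ 2 + n]` differ from
`n / (2 log n)` by at most `n / (log n) ^ U`.
* Almost surely, for all `M`, `U`, all large `x` and all `Y ≤ x` with `log x ≤ (log Y) ^ M` (that is
`Y ≥ exp ((log x) ^ (1 / M))`), the number of the elements of `R` in `[x + 1, x + Y]` differs from
`∑_(x < n ≤ x + Y) 1 / log n` by at most `Y / (log x) ^ U`. -/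
theorem result :
    (∀ᵐ a ∂law, ∀ U : ℕ, ∀ᶠ n : ℕ in atTop,
      |(count a (n ^ 2 - n) (n ^ 2) : ℝ) - n / (2 * Real.log n)| ≤ n / Real.log n ^ U ∧
      |(count a (n ^ 2) (n ^ 2 + n) : ℝ) - n / (2 * Real.log n)| ≤ n / Real.log n ^ U) ∧
    (∀ᵐ a ∂law, ∀ M U : ℕ, ∀ᶠ x : ℕ in atTop, ∀ Y : ℕ, Y ≤ x → Real.log x ≤ Real.log Y ^ M →
      |(count a (x + 1) (x + Y) : ℝ) - ∑ n ∈ Finset.Icc (x + 1) (x + Y), 1 / Real.log n| ≤ Y / Real.log x ^ U) := by
  refine ⟨?_, short⟩
  filter_upwards [near 0 (by norm_num), near 1 le_rfl] with a h0 h1 U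
  filter_upwards [h0 U, h1 U] with n k0 k1
  constructor
  · rw [one_mul] at k1
    have : n ^ 2 - n + n = n ^ 2 := Nat.sub_add_cancel (by nlinarith [Nat.zero_le n, sq_nonneg n, Nat.le_self_pow (two_ne_zero) n])
    rwa [this] at k1
  · rw [zero_mul, Nat.sub_zero] at k0
    exact k0

end Pool.Agent.W2helper64.OutOfScope.RandomSieveOppermann
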